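import Pool.Agent.H.MP_0ca78d_co.Deg

namespace Pool.Agent.Results.MP_0ca78d_co.Disproof

open Pool.Agent.H.MP_0ca78d_co

/-- For every `k` with `18 ≤ k ≤ 26` there are arbitrarily large `n` and connected Hamiltonian
`k`-edge-proper graphs on `n` vertices, with all degrees at least `3`, that have fewer than
`⌈(4k-9)n/(2k-4)⌉` edges. -/
theorem result : ∀ k : ℕ, 18 ≤ k → k ≤ 26 → ∀ n₀ : ℕ, ∃ n : ℕ, n₀ ≤ n ∧
    ∃ G : SimpleGraph (Fin n), G.Connected ∧ G.IsHamiltonian ∧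
      (∀ v, 3 ≤ (G.neighborSet v).ncard) ∧ EdgeProper k G ∧
      G.edgeSet.ncard < ⌈((4 * (k : ℚ) - 9) * (n : ℚ)) / (2 * (k : ℚ) - 4)⌉₊ := by
  intro k hk1 hk2 n₀
  have ht : 2 ≤ n₀ + 2 := by omega
  refine ⟨30 * (n₀ + 2), by omega, neck (n₀ + 2) ht, (neck_hamiltonian ht).connected,
    neck_hamiltonian ht, neck_degree ht, neck_edgeProper ht hk2, ?_⟩
  rw [Nat.lt_ceil]
  have h1 : ((neck (n₀ + 2) ht).edgeSet.ncard : ℚ) ≤ 59 * ((n₀ + 2 : ℕ) : ℚ) := by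
    exact_mod_cast neck_card ht
  refine lt_of_le_of_lt h1 ?_
  have hk : (18 : ℚ) ≤ (k : ℚ) := by exact_mod_cast hk1
  have hpos : (0 : ℚ) < 2 * (k : ℚ) - 4 := by linarith
  have ht0 : (0 : ℚ) < ((n₀ + 2 : ℕ) : ℚ) := by positivity
  rw [lt_div_iff₀ hpos]
  push_cast
  push_cast at ht0
  nlinarith [mul_pos ht0 (show (0 : ℚ) < 2 * (k : ℚ) - 34 by linarith)]

end Pool.Agent.Results.MP_0ca78d_co.Disproof
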